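import Pool.Agent.W323.SC.Stm

set_option autoImplicit false
open Finset
open scoped Classical
open Pool.Agent.W323.SC

namespace Pool.Agent.W228.SC

theorem nst_card {α ι κ : Type} {a : α → ι} {b : α → κ} {S : Finset α} (h : nst a b S) :
    2 ≤ S.card := by
  obtain ⟨p, hp, q, hq, hpq⟩ := h
  have hne : p ≠ q := fun h => hpq.1 (by rw [h])
  exact Finset.one_lt_card.2 ⟨p, hp, q, hq, hne⟩

theorem sum_pc {α : Type} [Fintype α] (f : Finset α → ℝ) (k : ℕ) (P : Finset α → Prop) :
    ∑ S ∈ ((univ : Finset α).powersetCard k).filter (fun S => P S), f S =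
      ∑ S : Finset α, if S.card = k ∧ P S then f S else 0 := by
  rw [← Finset.sum_filter]
  refine Finset.sum_congr ?_ (fun _ _ => rfl)
  ext S
  simp [Finset.mem_powersetCard]

theorem sum_pc' {α : Type} [Fintype α] (f : Finset α → ℝ) (k : ℕ) :
    ∑ S ∈ (univ : Finset α).powersetCard k, f S =
      ∑ S : Finset α, if S.card = k then f S else 0 := by
  rw [← Finset.sum_filter]
  refine Finset.sum_congr ?_ (fun _ _ => rfl)
  ext S
  simp [Finset.mem_powersetCard]

theorem sub : S_F4 → S_A → S_B → S_C → S_P1 → S_P2 → S_P3 → S_P4 → S_Sub := by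
  intro hF4 hA hB hC hP1 hP2 hP3 hP4 α ι κ _ a b hinj y hy
  have f4 := hF4 α ι κ a b hinj y hy
  have hA' := hA α ι κ a b hinj y hy
  have hB' := hB α ι κ a b hinj y hy
  have hC' := hC α ι κ a b hinj y hy
  have hP4' := hP4 α ι κ a b hinj y hy
  have wn : ∀ S : Finset α, 0 ≤ w y S := fun S => Finset.prod_nonneg (fun p _ => hy p)
  -- splitting of the family of nst sets
  have e1 : ∑ S ∈ (univ : Finset (Finset α)).filter (fun S => nst a b S), w y S =
      ∑ q ∈ prs a b univ, w y q +
      ∑ S ∈ ((univ : Finset α).powersetCard 3).filter (fun S => nst a b S), w y S +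
      ∑ S ∈ (univ : Finset (Finset α)).filter (fun S => 4 ≤ S.card ∧ nst a b S), w y S := by
    unfold prs
    rw [sum_pc, sum_pc, Finset.sum_filter, Finset.sum_filter, ← Finset.sum_add_distrib,
      ← Finset.sum_add_distrib]
    refine Finset.sum_congr rfl (fun S _ => ?_)
    by_cases h : nst a b S
    · have h2 := nst_card h
      by_cases h3 : S.card = 2
      · simp [h, h3]
      · by_cases h4 : S.card = 3
        · simp [h, h4]
        · have h5 : 4 ≤ S.card := by omega
          simp [h, h3, h4, h5]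
    · simp [h]
  -- splitting of the family of nonempty sets
  have e2 : ∑ S ∈ (univ : Finset (Finset α)).filter (fun S => 1 ≤ S.card), w y S =
      (∑ p, y p) + ∑ S ∈ (univ : Finset α).powersetCard 2, w y S +
      ∑ S ∈ (univ : Finset (Finset α)).filter (fun S => 3 ≤ S.card), w y S := by
    have h1 : (∑ p, y p) = ∑ S ∈ (univ : Finset α).powersetCard 1, w y S := by
      rw [Finset.powersetCard_one, Finset.sum_map]
      refine Finset.sum_congr rfl (fun p _ => ?_)
      simp [w]
    rw [h1, sum_pc', sum_pc', Finset.sum_filter, Finset.sum_filter, ← Finset.sum_add_distrib,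
      ← Finset.sum_add_distrib]
    refine Finset.sum_congr rfl (fun S _ => ?_)
    by_cases h1 : S.card = 1
    · simp [h1]
    · by_cases h2 : S.card = 2
      · simp [h2]
      · by_cases h3 : 3 ≤ S.card
        · have : 1 ≤ S.card := by omega
          simp [h1, h2, h3, this]
        · have : ¬ 1 ≤ S.card := by omega
          simp [h1, h2, h3, this]
  -- the product
  have e3 : (∑ S ∈ (univ : Finset (Finset α)).filter (fun S => 2 ≤ S.card ∧ cst a S), w y S) *
      (∑ S ∈ (univ : Finset (Finset α)).filter (fun S => 2 ≤ S.card ∧ cst b S), w y S) =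
      (∑ S ∈ ((univ : Finset α).powersetCard 2).filter (fun S => cst a S), w y S) *
      (∑ S ∈ ((univ : Finset α).powersetCard 2).filter (fun S => cst b S), w y S) +
      ∑ R ∈ (univ : Finset (Finset α)).filter (fun R => 2 ≤ R.card ∧ cst a R),
      ∑ C ∈ (univ : Finset (Finset α)).filter (fun C => 2 ≤ C.card ∧ cst b C ∧ 5 ≤ R.card + C.card),
        w y R * w y C := by
    rw [sum_pc, sum_pc, Finset.sum_filter, Finset.sum_filter, Finset.sum_mul_sum,
      Finset.sum_mul_sum, Finset.sum_filter, ← Finset.sum_add_distrib]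
    refine Finset.sum_congr rfl (fun R _ => ?_)
    by_cases hR : 2 ≤ R.card ∧ cst a R
    · rw [if_pos hR, if_pos hR, Finset.sum_filter, ← Finset.sum_add_distrib]
      refine Finset.sum_congr rfl (fun C _ => ?_)
      by_cases hCc : 2 ≤ C.card ∧ cst b C
      · rw [if_pos hCc]
        by_cases h5 : 5 ≤ R.card + C.card
        · have hn : ¬ ((R.card = 2 ∧ cst a R) ∧ (C.card = 2 ∧ cst b C)) := by
            rintro ⟨⟨h1, _⟩, ⟨h2, _⟩⟩
            omega
          rw [if_pos (⟨hCc.1, hCc.2, h5⟩ : 2 ≤ C.card ∧ cst b C ∧ 5 ≤ R.card + C.card)]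
          by_cases h1 : R.card = 2 ∧ cst a R
          · have h2 : ¬ (C.card = 2 ∧ cst b C) := fun h2 => hn ⟨h1, h2⟩
            rw [if_neg h2]
            ring
          · rw [if_neg h1]
            ring
        · have h1 : R.card = 2 := by omega
          have h2 : C.card = 2 := by omega
          rw [if_pos (⟨h1, hR.2⟩ : R.card = 2 ∧ cst a R), if_pos (⟨h2, hCc.2⟩ : C.card = 2 ∧ cst b C),
            if_neg (fun h => h5 h.2.2)]
          ring
      · have h6 : ¬ (2 ≤ C.card ∧ cst b C ∧ 5 ≤ R.card + C.card) := fun h => hCc ⟨h.1, h.2.1⟩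
        rw [if_neg hCc, if_neg h6]
        by_cases h2 : C.card = 2 ∧ cst b C
        · exact absurd ⟨le_of_eq h2.1.symm, h2.2⟩ hCc
        · rw [if_neg h2]
          ring
    · rw [if_neg hR, if_neg hR]
      have h1 : ¬ (R.card = 2 ∧ cst a R) := fun h => hR ⟨le_of_eq h.1.symm, h.2⟩
      rw [if_neg h1]
      simp
  -- (i) : the sets S with 4 ≤ card
  have i1 : ∑ S ∈ (univ : Finset (Finset α)).filter (fun S => 4 ≤ S.card ∧ nst a b S),
        w y S * ∑ p ∈ S, y p ≤
      (∑ S ∈ (univ : Finset (Finset α)).filter (fun S => 4 ≤ S.card),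
        w y S * ∑ p ∈ S, y p * (gp a b S p : ℝ)) +
      (∑ S ∈ (univ : Finset (Finset α)).filter (fun S => 4 ≤ S.card),
        w y S * ∑ p ∈ S, y p * (cr a b S p : ℝ)) := by
    rw [← Finset.sum_add_distrib, Finset.sum_filter, Finset.sum_filter]
    refine Finset.sum_le_sum (fun S _ => ?_)
    by_cases h4 : 4 ≤ S.card
    · rw [if_pos h4]
      have hr : w y S * ∑ p ∈ S, y p * (gp a b S p : ℝ) + w y S * ∑ p ∈ S, y p * (cr a b S p : ℝ) =
          w y S * ∑ p ∈ S, y p * ((gp a b S p : ℝ) + (cr a b S p : ℝ)) := by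
        rw [← mul_add, ← Finset.sum_add_distrib]
        congr 1
        refine Finset.sum_congr rfl (fun p _ => ?_)
        ring
      rw [hr]
      by_cases hn : nst a b S
      · rw [if_pos ⟨h4, hn⟩]
        refine mul_le_mul_of_nonneg_left ?_ (wn S)
        refine Finset.sum_le_sum (fun p hp => ?_)
        have h1 := hP1 α ι κ a b hinj S p hn hp
        have h2 : (1 : ℝ) ≤ (gp a b S p : ℝ) + (cr a b S p : ℝ) := by exact_mod_cast h1
        have h3 := hy p
        nlinarith
      · rw [if_neg (fun h => hn h.2)]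
        refine mul_nonneg (wn S) (Finset.sum_nonneg (fun p _ => mul_nonneg (hy p) ?_))
        positivity
    · rw [if_neg h4, if_neg (fun h => h4 h.1)]
  -- (ii) : the sets U with 5 ≤ card
  have i2 : (∑ U ∈ (univ : Finset (Finset α)).filter (fun U => 5 ≤ U.card), (n1 a b U : ℝ) * w y U) ≤
      (∑ U ∈ (univ : Finset (Finset α)).filter (fun U => 5 ≤ U.card), ((prs a b U).card : ℝ) * w y U) +
      (∑ U ∈ (univ : Finset (Finset α)).filter (fun U => 5 ≤ U.card), (spl a b U : ℝ) * w y U) +
      ∑ U ∈ ((univ : Finset α).powersetCard 5).filter (fun U => cp a b U), w y U := by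
    rw [sum_pc, Finset.sum_filter, Finset.sum_filter, Finset.sum_filter, ← Finset.sum_add_distrib,
      ← Finset.sum_add_distrib]
    refine Finset.sum_le_sum (fun U _ => ?_)
    by_cases h5 : 5 ≤ U.card
    · rw [if_pos h5, if_pos h5, if_pos h5]
      by_cases h6 : 6 ≤ U.card
      · have h1 := hP2 α ι κ a b hinj U h6
        have h2 : (n1 a b U : ℝ) ≤ ((prs a b U).card : ℝ) + (spl a b U : ℝ) := by exact_mod_cast h1
        have h3 : (n1 a b U : ℝ) * w y U ≤ (((prs a b U).card : ℝ) + (spl a b U : ℝ)) * w y U :=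
          mul_le_mul_of_nonneg_right h2 (wn U)
        have h4 : (0 : ℝ) ≤ if U.card = 5 ∧ cp a b U then w y U else 0 := by
          split_ifs
          · exact wn U
          · exact le_refl _
        linarith
      · have hc : U.card = 5 := by omega
        have h1 := hP3 α ι κ a b hinj U hc
        by_cases hcp : cp a b U
        · rw [if_pos hcp] at h1
          rw [if_pos ⟨hc, hcp⟩]
          have h2 : (n1 a b U : ℝ) ≤ ((prs a b U).card : ℝ) + (spl a b U : ℝ) + 1 := by
            exact_mod_cast h1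
          have h3 : (n1 a b U : ℝ) * w y U ≤ (((prs a b U).card : ℝ) + (spl a b U : ℝ) + 1) * w y U :=
            mul_le_mul_of_nonneg_right h2 (wn U)
          linarith
        · rw [if_neg hcp] at h1
          rw [if_neg (fun h => hcp h.2)]
          have h2 : (n1 a b U : ℝ) ≤ ((prs a b U).card : ℝ) + (spl a b U : ℝ) := by
            have h1' : n1 a b U ≤ (prs a b U).card + spl a b U := by simpa using h1
            exact_mod_cast h1'
          have h3 : (n1 a b U : ℝ) * w y U ≤ (((prs a b U).card : ℝ) + (spl a b U : ℝ)) * w y U :=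
            mul_le_mul_of_nonneg_right h2 (wn U)
          linarith
    · have h6 : ¬ (U.card = 5 ∧ cp a b U) := fun h => h5 (le_of_eq h.1.symm)
      rw [if_neg h5, if_neg h5, if_neg h5, if_neg h6]
      simp
  -- (iii) : triples among sets with at least three elements
  have i3 : ∑ W ∈ (univ : Finset α).powersetCard 3, w y W * ∑ q ∈ prs a b W, w y q ≤
      ∑ W ∈ (univ : Finset (Finset α)).filter (fun W => 3 ≤ W.card), w y W * ∑ q ∈ prs a b W, w y q := by
    rw [sum_pc', Finset.sum_filter]
    refine Finset.sum_le_sum (fun W _ => ?_)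
    have hn : 0 ≤ w y W * ∑ q ∈ prs a b W, w y q :=
      mul_nonneg (wn W) (Finset.sum_nonneg (fun q _ => wn q))
    by_cases h3 : W.card = 3
    · rw [if_pos h3, if_pos (le_of_eq h3.symm)]
    · rw [if_neg h3]
      split_ifs
      · exact hn
      · exact le_refl _
  rw [e1, e2, e3]
  have d1 : (∑ p, y p) * (∑ q ∈ prs a b univ, w y q +
      ∑ S ∈ ((univ : Finset α).powersetCard 3).filter (fun S => nst a b S), w y S +
      ∑ S ∈ (univ : Finset (Finset α)).filter (fun S => 4 ≤ S.card ∧ nst a b S), w y S) =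
      (∑ p, y p) * (∑ q ∈ prs a b univ, w y q) +
      (∑ p, y p) * (∑ S ∈ ((univ : Finset α).powersetCard 3).filter (fun S => nst a b S), w y S) +
      (∑ p, y p) * (∑ S ∈ (univ : Finset (Finset α)).filter (fun S => 4 ≤ S.card ∧ nst a b S), w y S) := by
    ring
  have d2 : (∑ q ∈ prs a b univ, w y q) * ((∑ p, y p) + ∑ S ∈ (univ : Finset α).powersetCard 2, w y S +
      ∑ S ∈ (univ : Finset (Finset α)).filter (fun S => 3 ≤ S.card), w y S) =
      (∑ p, y p) * (∑ q ∈ prs a b univ, w y q) +
      (∑ q ∈ prs a b univ, w y q) * (∑ S ∈ (univ : Finset α).powersetCard 2, w y S) +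
      (∑ q ∈ prs a b univ, w y q) * (∑ S ∈ (univ : Finset (Finset α)).filter (fun S => 3 ≤ S.card), w y S) := by
    ring
  rw [d1, d2, hA', hB']
  linarith

end Pool.Agent.W228.SC
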